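import Mathlib

/-!
# Sheet BS (MP_bfe0f8_an, S05997): reflexive bisymmetric strictly increasing operations are
continuous
-/

set_option autoImplicit false

namespace Pool.Agent.Helper93.BS

open Set

/-- reflexive, bisymmetric, strictly increasing operation on a linear order -/
structure Op {α : Type} [LinearOrder α] (F : α → α → α) : Prop where
  rf : ∀ x, F x x = x
  med : ∀ x y u v, F (F x y) (F u v) = F (F x u) (F y v)
  left : ∀ y, StrictMono (fun x => F x y)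
  right : ∀ x, StrictMono (F x)

/-- the scaled addition `x ∘ y = F (F e x) (F y e)` -/
def cc {α : Type} (F : α → α → α) (e : α) (x y : α) : α := F (F e x) (F y e)

/-- axioms of a scaled addition -/
structure CM {α : Type} [LinearOrder α] (c : α → α → α) (e : α) : Prop where
  ee : c e e = e
  comm : ∀ x y, c x y = c y x
  med : ∀ x y u v, c (c x y) (c u v) = c (c x u) (c y v)
  mono : ∀ x, StrictMono (c x)

/-- ALG: from `F` to `c`: `c x y = F (F e x) (F y e) = F (F e y) (F x e) = c y x`. -/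
def ST_ALG : Prop := ∀ (α : Type) [LinearOrder α] (F : α → α → α) (e : α), Op F →
  CM (cc F e) e ∧
  (∀ x y, F e (cc F e x y) = cc F e (F e x) (F e y)) ∧
  (∀ x y, F (cc F e x y) e = cc F e (F x e) (F y e)) ∧
  (∀ x y, cc F e (F x e) (F e y) = cc F e (F x y) e) ∧
  ∀ x, cc F e (F x e) (F e x) = cc F e x e

/-- GRP: `T x = c x e`. Elements of `A`: classes of `(n, x, y) : ℕ × α × α`, meaning
`σ^(-n) (y - x)`; `(n, x, y) ≤ (m, x', y')` iff `c (T^m y) (T^n x') ≤ c (T^n y') (T^m x)`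
(a total preorder: `Antisymmetrization`); sum `(n + m + 1, c (T^m x) (T^n x'), c (T^m y) (T^n y'))`;
`j x = (0, e, x)`; `σ (n, x, y) = (n, T x, T y)`; `H (n, x, y) = (n, h x, h y)`. Or in two steps:
localize at `T` (then `x + y = T⁻¹ (c x y)` is an ordered cancellative commutative monoid), then
`Mathlib/GroupTheory/MonoidLocalization/Order` (`AddLocalization`). -/
def ST_GRP : Prop := ∀ (α : Type) [LinearOrder α] (c : α → α → α) (e : α), CM c e →
  ∃ (A : Type) (_ : AddCommGroup A) (_ : LinearOrder A) (_ : IsOrderedAddMonoid A) (j : α → A)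
    (σ : A →+ A), StrictMono j ∧ j e = 0 ∧ StrictMono σ ∧ (∀ x y, j (c x y) = σ (j x + j y)) ∧
    (∀ a, ∃ n : ℕ, ∃ x y, (σ : A → A)^[n] a = j y - j x) ∧
    ∀ h : α → α, StrictMono h → h e = e → (∀ x y, h (c x y) = c (h x) (h y)) →
      ∃ H : A →+ A, StrictMono H ∧ (∀ x, H (j x) = j (h x)) ∧ ∀ a, H (σ a) = σ (H a)

/-- EMB (from ALG, GRP): `φ` from `h x = F x e`, `ψ` from `h x = F e x`;
`σ (φ (j x) + ψ (j y)) = j (cc (F x e) (F e y)) = j (cc (F x y) e) = σ (j (F x y))`;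
`φ a + ψ a = a` for `a = j x`, then for all `a`, as `σ^n a = j y - j x`. -/
def ST_EMB : Prop := ∀ (α : Type) [LinearOrder α] [Nonempty α] (F : α → α → α), Op F →
  ∃ (A : Type) (_ : AddCommGroup A) (_ : LinearOrder A) (_ : IsOrderedAddMonoid A) (j : α → A)
    (φ ψ : A →+ A), StrictMono j ∧ StrictMono φ ∧ StrictMono ψ ∧ (∀ w, φ w + ψ w = w) ∧
    ∀ x y, j (F x y) = φ (j x) + ψ (j y)

/-- representation of `F` on `[a, b]` -/
structure Rp {A : Type} [AddCommGroup A] [LinearOrder A] (a b : ℝ) (F : ℝ → ℝ → ℝ) (j : ℝ → A)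
    (φ ψ : A →+ A) : Prop where
  ab : a < b
  st : ∀ x ∈ Icc a b, ∀ y ∈ Icc a b, F x y ∈ Icc a b
  jm : StrictMonoOn j (Icc a b)
  φm : StrictMono φ
  ψm : StrictMono ψ
  sm : ∀ w, φ w + ψ w = w
  jF : ∀ x ∈ Icc a b, ∀ y ∈ Icc a b, j (F x y) = φ (j x) + ψ (j y)

/-- ONE: the set of the `x` with `j x - j a ≤ n • φ (j b - j a)` for some `n` is open and closed
in `[a, b]`: `[F a x, F b x]` is a neighbourhood of `x` and `j (F b x) - j (F a x) = φ (j b - j a)`
(take the supremum `s` of this set: `F a s < s < F b s` if `a < s < b`). -/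
def ST_ONE : Prop := ∀ (A : Type) [AddCommGroup A] [LinearOrder A] [IsOrderedAddMonoid A]
  (a b : ℝ) (F : ℝ → ℝ → ℝ) (j : ℝ → A) (φ ψ : A →+ A), Rp a b F j φ ψ →
  ∃ n : ℕ, j b - j a ≤ n • φ (j b - j a)

/-- ONE' (the same for `ψ`; or from ONE for `fun x y => F y x`) -/
def ST_ONE' : Prop := ∀ (A : Type) [AddCommGroup A] [LinearOrder A] [IsOrderedAddMonoid A]
  (a b : ℝ) (F : ℝ → ℝ → ℝ) (j : ℝ → A) (φ ψ : A →+ A), Rp a b F j φ ψ →
  ∃ n : ℕ, j b - j a ≤ n • ψ (j b - j a)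

/-- SIE: a compact interval is not a countable union of disjoint closed intervals. `E` = the
points of `[a, b]` near which `f` is not constant: closed, every point is an endpoint of a class,
so countable; if nonempty it has a point isolated in `E` (Baire,
`nonempty_interior_of_iUnion_of_closed`); next to it `f` is constant on both sides, and as the
classes are closed it is constant near it. If `E` is empty, `f` is locally constant. -/
def ST_SIE : Prop := ∀ (a b : ℝ) (f : ℝ → ℕ), a ≤ b →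
  (∀ n, IsClosed {x | x ∈ Icc a b ∧ f x = n}) →
  (∀ x ∈ Icc a b, ∀ y ∈ Icc a b, ∀ z ∈ Icc a b, x ≤ y → y ≤ z → f x = f z → f y = f x) →
  f a = f b

/-- CLS: an equivalence relation on `[a, b]` with convex classes such that `g x` is in the
interior of a nondegenerate interval in one class and `g x ~ g y` implies `x ~ y`, has only
countably many classes. (Choose a rational in each interval `[l x, r x]`; classes of `g x`.) -/
def ST_CLS : Prop := ∀ (a b : ℝ) (r : ℝ → ℝ → Prop) (l u : ℝ → ℝ), a < b → Equivalence r →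
  (∀ x ∈ Icc a b, l x < u x ∧ r (l x) (u x)) →
  (∀ x y z, x ≤ y → y ≤ z → r x z → r x y) →
  (∀ x ∈ Icc a b, ∀ y ∈ Icc a b, r (l x) (l y) → r x y) →
  ∃ f : ℝ → ℕ, ∀ x ∈ Icc a b, ∀ y ∈ Icc a b, f x = f y ↔ r x y

/-- TWO (from ONE, ONE', SIE, CLS): otherwise `z ~ z'` iff `n • |j z - j z'| < j b - j a` for all
`n` (extend outside `[a, b]` by the projection to `[a, b]`). `φ w` is small iff `w` is (ONE), the
same for `ψ`. CLS with `l z = F x z`, `u z = F y z`. Classes are closed: `r = sup X`, `s ∈ X`,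
`s < r`: `s < F r s < r`, so `F r s ∈ X`, `φ (j r - j s) = j (F r s) - j s` is small, so `r ∈ X`;
the same for the infimum. -/
def ST_TWO : Prop := ∀ (A : Type) [AddCommGroup A] [LinearOrder A] [IsOrderedAddMonoid A]
  (a b : ℝ) (F : ℝ → ℝ → ℝ) (j : ℝ → A) (φ ψ : A →+ A), Rp a b F j φ ψ →
  ∀ x ∈ Icc a b, ∀ y ∈ Icc a b, x < y → ∃ n : ℕ, j b - j a ≤ n • (j y - j x)

/-- THR (from ONE', TWO): no jumps. Suppose `δ > 0` in `A`, `δ ≥ j q - j p`, `p < q`, and
`δ ≤ ψ (j y - j y₀)` for all `y > y₀`. `y_(k+1) = F y_k y₀`: `j y_k - j y₀ = φ^k (j y - j y₀) ≤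
φ^k u`, `u = j b - j a`; `m • φ u ≤ (m - 1) • u` by ONE' (`φ u = u - ψ u`), so `n • φ^k u < u`
for large `k`, against TWO for `p < q`. -/
def ST_THR : Prop := ∀ (A : Type) [AddCommGroup A] [LinearOrder A] [IsOrderedAddMonoid A]
  (a b : ℝ) (F : ℝ → ℝ → ℝ) (j : ℝ → A) (φ ψ : A →+ A), Rp a b F j φ ψ →
  ∀ p ∈ Icc a b, ∀ q ∈ Icc a b, p < q → ∀ y₀ ∈ Icc a b,
  (y₀ < b → ∃ y ∈ Ioc y₀ b, j y - j y₀ < j q - j p) ∧
  (a < y₀ → ∃ y ∈ Ico a y₀, j y₀ - j y < j q - j p)

/-- CON (from THR): `F` is continuous in each variable (a jump of `F x` at `y₀`: between `F x y₀`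
and `F x y`, `y > y₀`: `j (F x y) - j (F x y₀) = ψ (j y - j y₀) ≤ j y - j y₀`). -/
def ST_CON : Prop := ∀ (A : Type) [AddCommGroup A] [LinearOrder A] [IsOrderedAddMonoid A]
  (a b : ℝ) (F : ℝ → ℝ → ℝ) (j : ℝ → A) (φ ψ : A →+ A), Rp a b F j φ ψ →
  ∀ x ∈ Icc a b, ContinuousOn (F x) (Icc a b) ∧ ContinuousOn (fun y => F y x) (Icc a b)

/-- JC: increasing and continuous in each variable implies continuous. -/
def ST_JC : Prop := ∀ (a b : ℝ) (F : ℝ → ℝ → ℝ), a < b →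
  (∀ x ∈ Icc a b, ContinuousOn (F x) (Icc a b) ∧ ContinuousOn (fun y => F y x) (Icc a b)) →
  (∀ x ∈ Icc a b, StrictMonoOn (F x) (Icc a b) ∧ StrictMonoOn (fun y => F y x) (Icc a b)) →
  ContinuousOn (Function.uncurry F) (Icc a b ×ˢ Icc a b)

/-- SUB (from EMB, CON, JC): continuity on every `[a, b]` in `I` (`α = Icc a b`). -/
def ST_SUB : Prop := ∀ (a b : ℝ) (F : ℝ → ℝ → ℝ), a < b →
  (∀ x ∈ Icc a b, F x x = x) →
  (∀ x ∈ Icc a b, ∀ y ∈ Icc a b, ∀ u ∈ Icc a b, ∀ v ∈ Icc a b,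
    F (F x y) (F u v) = F (F x u) (F y v)) →
  (∀ x ∈ Icc a b, StrictMonoOn (F x) (Icc a b) ∧ StrictMonoOn (fun y => F y x) (Icc a b)) →
  ContinuousOn (Function.uncurry F) (Icc a b ×ˢ Icc a b)

/-- FIN (from SUB): every point of `I × I` has a neighbourhood in `I × I` in some
`Icc a b ×ˢ Icc a b`, `a, b ∈ I`. -/
def ST_FIN : Prop := ∀ (I : Set ℝ), I.OrdConnected → ∀ F : ℝ → ℝ → ℝ,
      (∀ x ∈ I, ∀ y ∈ I, F x y ∈ I) →
      (∀ x ∈ I, F x x = x) →
      (∀ x ∈ I, ∀ y ∈ I, ∀ u ∈ I, ∀ v ∈ I,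
        F (F x y) (F u v) = F (F x u) (F y v)) →
      (∀ x ∈ I, StrictMonoOn (F x) I) →
      (∀ y ∈ I, StrictMonoOn (fun x => F x y) I) →
      ContinuousOn (Function.uncurry F) (I ×ˢ I)

end Pool.Agent.Helper93.BS
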